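import Mathlib
import Pool.Agent.Helper78.SepDefs
import Pool.Agent.Helper78.Schlaefli

/-!
# `MP_a3c043_al`, Q2: a strongly separating group that is not QI

The group is the Weyl group `W(E₆)` (order 51840) in its action on the 27 points of the generalised
quadrangle `GQ(2,4)` (the 27 lines of a smooth cubic surface).
-/

set_option autoImplicit false

namespace Pool.Agent.Results.MP_a3c043_al.SSNotQI

open Pool.Agent.Helper78.Sep

/-- There is a transitive permutation group of degree 27 that is strongly separating but not QI. -/
theorem result : ∃ G : Subgroup (Equiv.Perm (Fin 27)), MulAction.IsPretransitive G (Fin 27) ∧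
    StronglySeparating G ∧ ¬ QI G :=
  ⟨Pool.Agent.Helper78.Schlaefli.G, Pool.Agent.Helper78.Schlaefli.transitive_G,
    Pool.Agent.Helper78.Schlaefli.stronglySeparating_G,
    Pool.Agent.Helper78.Schlaefli.not_QI_G⟩

end Pool.Agent.Results.MP_a3c043_al.SSNotQI
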